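import Pool.Agent.Helper89.UB.Stmts

set_option autoImplicit false

namespace Pool.Agent.Helper89.UB

theorem uni_up (b : ℕ → ℕ) (k : ℕ) (h : ∀ m, 1 ≤ m → m < k → b m ≤ b (m + 1)) :
    ∀ i j : ℕ, 1 ≤ i → i ≤ j → j ≤ k → b i ≤ b j := by
  intro i j hi hij
  induction j, hij using Nat.le_induction with
  | base => intro _; exact le_rfl
  | succ j hj ih =>
    intro hk
    exact (ih (by omega)).trans (h j (by omega) (by omega))

theorem uni_down (b : ℕ → ℕ) (k n : ℕ) (h : ∀ m, k ≤ m → m < n → b (m + 1) ≤ b m) :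
    ∀ i j : ℕ, k ≤ i → i ≤ j → j ≤ n → b j ≤ b i := by
  intro i j hi hij
  induction j, hij using Nat.le_induction with
  | base => intro _; exact le_rfl
  | succ j hj ih =>
    intro hk
    exact (h j (by omega) (by omega)).trans (ih (by omega))

theorem st_UNI : ST_UNI := by
  classical
  intro n M₁ M₂ b h12 h1 h2 h3
  have hex : ∃ k, M₁ + 1 ≤ k ∧ (M₂ + 1 ≤ k ∨ b (k + 1) ≤ b k) :=
    ⟨M₂ + 1, by omega, Or.inl le_rfl⟩
  let k := Nat.find hex
  have hk : M₁ + 1 ≤ k ∧ (M₂ + 1 ≤ k ∨ b (k + 1) ≤ b k) := Nat.find_spec hex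
  have hmin : ∀ m, m < k → ¬ (M₁ + 1 ≤ m ∧ (M₂ + 1 ≤ m ∨ b (m + 1) ≤ b m)) :=
    fun m hm => Nat.find_min hex hm
  refine ⟨k, uni_up b k ?_, uni_down b k n ?_⟩
  · intro m hm1 hm2
    by_cases h : m ≤ M₁
    · exact h1 m hm1 h
    · have h4 := hmin m hm2
      by_contra h5
      exact h4 ⟨by omega, Or.inr (by omega)⟩
  · intro m hm
    induction m, hm using Nat.le_induction with
    | base =>
      intro hn
      rcases hk.2 with h | h
      · exact h3 k (by omega) hn
      · exact h
    | succ m hm ih =>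
      intro hn
      by_cases h : M₂ < m + 1
      · exact h3 (m + 1) h hn
      · have h4 := ih (by omega)
        have h5 := (h2 m (by omega) (by omega)).1
        have h6 := (h2 (m + 1) (by omega) (by omega)).2
        simp only [Nat.add_sub_cancel] at h6
        have h7 : b m * b (m + 1 + 1) ≤ b m * b (m + 1) := by
          calc b m * b (m + 1 + 1) ≤ b (m + 1) ^ 2 := h6
            _ = b (m + 1) * b (m + 1) := by ring
            _ ≤ b m * b (m + 1) := Nat.mul_le_mul_right _ h4
        exact Nat.le_of_mul_le_mul_left h7 h5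

end Pool.Agent.Helper89.UB
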