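import Pool.Agent.Helper89.UB.Defs

set_option autoImplicit false

open Finset

namespace Pool.Agent.Helper89.UB

/-! ### counting -/

/-- number of set partitions times `m!` -/
def ST_LNK : Prop := ∀ (n : ℕ) (E : Finset (Finset (Fin n))) (m : ℕ),
  bc E m * m.factorial = sur E univ m

/-- merging against splitting -/
def ST_MRG : Prop := ∀ (n : ℕ) (E : Finset (Finset (Fin n))) (m : ℕ),
  ∑ c ∈ OP E univ (m + 1), mg E c =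
    (m + 1) * ∑ c ∈ OP E univ m, ∑ i, (2 ^ (c i).card - 2)

/-- convexity -/
def ST_AMG : Prop := ∀ (n m : ℕ) (E : Finset (Finset (Fin n))) (c : Fin m → Finset (Fin n)),
  1 ≤ m → (m + 3) ^ m ≤ 2 ^ n → c ∈ OP E univ m → m * (m + 1) ≤ ∑ i, (2 ^ (c i).card - 2)

/-- initial segment -/
def ST_INIT : Prop := ∀ (n m : ℕ) (E : Finset (Finset (Fin n))),
  1 ≤ m → (m + 3) ^ m ≤ 2 ^ n → (m + 1) * sur E univ m ≤ sur E univ (m + 1)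

/-- insertion of the elements of `U` -/
def ST_INS : Prop := ∀ (n D m : ℕ) (E : Finset (Finset (Fin n))), InsB E D →
  ∀ W U : Finset (Fin n), Disjoint W U → (m - D) ^ U.card * sur E W m ≤ sur E (W ∪ U) m

open scoped Classical in
/-- ordered partitions in which `U` lies in one block -/
def ST_SUB : Prop := ∀ (n D m : ℕ) (E : Finset (Finset (Fin n))), InsB E D →
  ∀ U : Finset (Fin n), U.Nonempty →
    (m - D) ^ (U.card - 1) * ((OP E univ m).filter (fun c => ∃ i, U ⊆ c i)).card ≤ sur E univ m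

/-- exponential moment of the block sizes -/
def ST_EXP : Prop := ∀ (n D m : ℕ) (E : Finset (Finset (Fin n))), InsB E D → D < m →
  ((∑ c ∈ OP E univ m, ∑ i, 2 ^ (c i).card : ℕ) : ℝ) ≤
    sur E univ m * (m * Real.exp (2 * n / ((m : ℝ) - D)))

open scoped Classical in
/-- ordered partitions with a block of size at least `r` -/
def ST_BIG : Prop := ∀ (n D m r : ℕ) (E : Finset (Finset (Fin n))), InsB E D → 1 ≤ r →
    (m - D) ^ (r - 1) * ((OP E univ m).filter (fun c => ∃ i, r ≤ (c i).card)).card ≤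
      n.choose r * sur E univ m

/-- few blocks are closed for a new vertex -/
def ST_INB : Prop := ∀ (n Δ M r : ℕ) (E : Finset (Finset (Fin n))), (∀ e ∈ E, 2 ≤ e.card) →
  2 ≤ r → (∀ v, deg2 E v ≤ Δ) → (E.filter (fun e => 3 ≤ e.card ∧ e.card < r)).card ≤ M →
    InsB E (Δ + M + n / (r - 1))

/-- most pairs of blocks can be merged -/
def ST_MGL : Prop := ∀ (n r m : ℕ) (E : Finset (Finset (Fin n))) (c : Fin m → Finset (Fin n)),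
  (∀ e ∈ E, 2 ≤ e.card) → 1 ≤ r → c ∈ OP E univ m →
    m * (m - 1) * r ≤ mg E c * r + 2 * (E.filter (fun e => e.card < r)).card * r + 4 * n * m

/-- final segment: the sequence decreases for `m log n > 3 n` -/
def ST_FIN : Prop := ∃ n₀ : ℕ, ∀ n ≥ n₀, ∀ E : Finset (Finset (Fin n)),
  (∀ e ∈ E, 2 ≤ e.card) →
  (∀ v : Fin n, (deg2 E v : ℝ) * ((E.filter (fun e => e.card = 2)).card : ℝ) ≤
      (1 / 1000000000) * (n / Real.log n) ^ 2) →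
  ((E.filter (fun e => 3 ≤ e.card ∧ (e.card : ℝ) < 40 * Real.log n)).card : ℝ) ≤
      (1 / 1000000000) * (n / Real.log n) →
  ∀ m : ℕ, 3 * (n : ℝ) < m * Real.log n → m < n →
    sur E univ (m + 1) ≤ (m + 1) * sur E univ m

/-! ### chromatic polynomial and cumulants -/

/-- ordered partitions as convolution powers -/
def ST_SURC : Prop := ∀ (n : ℕ) (E : Finset (Finset (Fin n))) (m : ℕ) (W : Finset (Fin n)),
  (sur E W m : ℤ) = pw (fp E) m W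

/-- binomial theorem for convolution powers -/
def ST_BIN : Prop := ∀ (n : ℕ) (E : Finset (Finset (Fin n))), Al E ∅ →
  ∀ (q : ℕ) (W : Finset (Fin n)),
    pw (fz E) q W = ∑ m ∈ range (W.card + 1), (q.choose m : ℤ) * pw (fp E) m W

/-- values at natural numbers -/
def ST_PNAT : Prop := ∀ (n : ℕ) (E : Finset (Finset (Fin n))), Al E ∅ →
  ∀ (q : ℕ) (W : Finset (Fin n)), PW E W (q : ℂ) = (pw (fz E) q W : ℂ)

/-- recursion for convolution powers -/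
def ST_KCOL : Prop := ∀ (n : ℕ) (E : Finset (Finset (Fin n))), Al E ∅ →
  ∀ (q : ℕ) (W : Finset (Fin n)), ∀ v ∈ W,
    pw (fz E) q W = q * ∑ S ∈ (W.erase v).powerset, kap E v S * pw (fz E) q ((W.erase v) \ S)

/-- recursion for the chromatic polynomial -/
def ST_KREC : Prop := ∀ (n : ℕ) (E : Finset (Finset (Fin n))), Al E ∅ →
  ∀ (x : ℂ) (W : Finset (Fin n)), ∀ v ∈ W,
    PW E W x = x * ∑ S ∈ (W.erase v).powerset, (kap E v S : ℂ) * PW E ((W.erase v) \ S) x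

/-- cumulants of a graph -/
def ST_ETK : Prop := ∀ (n : ℕ) (E : Finset (Finset (Fin n))), (∀ e ∈ E, e.card = 2) →
  ∀ (v : Fin n) (B : Finset (Fin n)), v ∉ B →
    kap E v B = eta E (univ.filter (fun u => ({v, u} : Finset (Fin n)) ∈ E ∧ u ≠ v)) B

open scoped Classical in
/-- adding one vertex to `N` -/
def ST_ETS : Prop := ∀ (n : ℕ) (E : Finset (Finset (Fin n))), Al E ∅ →
  ∀ (N : Finset (Fin n)) (u : Fin n), u ∉ N → ∀ B : Finset (Fin n),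
    eta E (insert u N) B = eta E N B -
      (if u ∈ B then ∑ S ∈ (B.erase u).powerset,
        (if Disjoint S N then kap E u S else 0) * eta E N ((B.erase u) \ S) else 0)

/-- product bound for the norm of `eta` -/
def ST_ETN : Prop := ∀ (n : ℕ) (E : Finset (Finset (Fin n))), Al E ∅ → ∀ (x : ℝ), 0 ≤ x →
  ∀ N U : Finset (Fin n),
    ∑ S ∈ U.powerset, |(eta E N S : ℝ)| * x ^ S.card ≤
      ∏ u ∈ N ∩ U, (1 + x * ∑ S ∈ (U.erase u).powerset, |(kap E u S : ℝ)| * x ^ S.card)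

/-- norm of the cumulants -/
def ST_KB1 : Prop := ∀ (n Δ : ℕ) (E : Finset (Finset (Fin n))) (x : ℝ), (∀ e ∈ E, e.card = 2) →
  (∀ v, deg2 E v ≤ Δ) → 0 ≤ x → x * Δ ≤ 1 / 100 →
  ∀ (v : Fin n) (U : Finset (Fin n)), v ∉ U →
    ∑ S ∈ U.powerset, |(kap E v S : ℝ)| * x ^ S.card ≤ (1 + 2 * x) ^ (dg E U v)

/-- small cumulants and the tail of the norm -/
def ST_KB2 : Prop := ∀ (n Δ : ℕ) (E : Finset (Finset (Fin n))) (x : ℝ), (∀ e ∈ E, e.card = 2) →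
  (∀ v, deg2 E v ≤ Δ) → 0 ≤ x → x * Δ ≤ 1 / 100 →
  ∀ (v : Fin n), kap E v ∅ = 1 ∧
    (∀ u, u ≠ v → kap E v {u} = if ({v, u} : Finset (Fin n)) ∈ E then -1 else 0) ∧
    ∀ (U : Finset (Fin n)), v ∉ U →
      ∑ S ∈ U.powerset.filter (fun S => 2 ≤ S.card), |(kap E v S : ℝ)| * x ^ S.card ≤
        8 * (dg E U v) * Δ * x ^ 2

/-- zero-free region with the size of each ratio -/
def ST_RAT : Prop := ∀ (n Δ : ℕ) (E : Finset (Finset (Fin n))) (x : ℂ), (∀ e ∈ E, e.card = 2) →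
  (∀ v, deg2 E v ≤ Δ) → x ≠ 0 → 400 * (Δ : ℝ) ≤ ‖x‖ →
  ∀ (W : Finset (Fin n)), PW E W x ≠ 0 ∧ ∀ v ∈ W,
    ‖PW E W x / (x * PW E (W.erase v) x) - 1 + (dg E (W.erase v) v : ℂ) / x‖ ≤
      30 * (dg E (W.erase v) v) * Δ / ‖x‖ ^ 2

/-- the chromatic polynomial far from the origin -/
def ST_PRD : Prop := ∀ (n Δ : ℕ) (E : Finset (Finset (Fin n))) (x : ℂ), (∀ e ∈ E, e.card = 2) →
  (∀ v, deg2 E v ≤ Δ) → x ≠ 0 → 400 * (Δ : ℝ) ≤ ‖x‖ →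
  (Δ : ℝ) * E.card ≤ (1 / 1000) * ‖x‖ ^ 2 →
    ‖PW E univ x / x ^ n * Complex.exp ((E.card : ℂ) / x) - 1‖ ≤
      200 * ((Δ : ℝ) * E.card) / ‖x‖ ^ 2

/-- `2 e^2 ≤ n Δ e` and consequences: bounds for the degree and the number of edges -/
def ST_HND : Prop := ∃ n₀ : ℕ, ∀ n ≥ n₀, ∀ E : Finset (Finset (Fin n)), (∀ e ∈ E, e.card = 2) →
  (∀ v : Fin n, (deg2 E v : ℝ) * (E.card : ℝ) ≤ (1 / 1000000000) * (n / Real.log n) ^ 2) →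
    ((∀ v : Fin n, (deg2 E v : ℝ) ≤ (1 / 30000) * (n / Real.log n)) ∧
      (E.card : ℝ) ^ 2 ≤ (1 / 2000000000) * n ^ 3 / (Real.log n) ^ 2)

/-- existence of the shifted coefficients -/
def ST_SHX : Prop := ∀ (n : ℕ) (E : Finset (Finset (Fin n))) (a : ℝ), (∀ e ∈ E, 2 ≤ e.card) →
  ∃ r : ℕ → ℂ, (∀ x : ℂ, PW E univ (x + a) = ∑ j ∈ range (n + 1), r j * x ^ (n - j)) ∧ r 0 = 1

/-- Cauchy estimate for polynomials -/
def ST_SHC : Prop := ∀ (n : ℕ) (r : ℕ → ℂ) (R η : ℝ), 0 < R →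
  (∀ y : ℂ, ‖y‖ = R → ‖∑ j ∈ range (n + 1), r j * y ^ j - 1‖ ≤ η) →
    ∀ j, 1 ≤ j → j ≤ n → ‖r j‖ ≤ η / R ^ j

/-- the shifted polynomial on a circle -/
def ST_SHE : Prop := ∃ n₀ : ℕ, ∀ n ≥ n₀, ∀ E : Finset (Finset (Fin n)), (∀ e ∈ E, e.card = 2) →
  (∀ v : Fin n, (deg2 E v : ℝ) * (E.card : ℝ) ≤ (1 / 1000000000) * (n / Real.log n) ^ 2) →
    ∀ y : ℂ, ‖y‖ = 12 * Real.log n / n →
      ‖y ^ n * PW E univ (1 / y + ((E.card : ℝ) / n : ℝ)) - 1‖ ≤ 1 / 200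

/-- coefficients of the shifted polynomial -/
def ST_SHF : Prop := ∃ n₀ : ℕ, ∀ n ≥ n₀, ∀ E : Finset (Finset (Fin n)), (∀ e ∈ E, e.card = 2) →
  (∀ v : Fin n, (deg2 E v : ℝ) * (E.card : ℝ) ≤ (1 / 1000000000) * (n / Real.log n) ^ 2) →
    ∃ r : ℕ → ℂ, (∀ x : ℂ, PW E univ (x + ((E.card : ℝ) / n : ℝ)) =
        ∑ j ∈ range (n + 1), r j * x ^ (n - j)) ∧ r 0 = 1 ∧
      ∀ j, 1 ≤ j → j ≤ n → ‖r j‖ ≤ (1 / 200) * (n / (12 * Real.log n)) ^ j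

/-- falling factorials -/
def ST_FAL : Prop := ∀ n j : ℕ, j ≤ n →
  (n : ℝ) ^ j * (n - j).factorial ≤ Real.exp j * n.factorial

/-- the transformed polynomial is close to `1` -/
def ST_QBD : Prop := ∀ (n : ℕ) (r : ℕ → ℂ), 3 ≤ n → r 0 = 1 →
  (∀ j, 1 ≤ j → j ≤ n → ‖r j‖ ≤ (1 / 200) * (n / (12 * Real.log n)) ^ j) →
    ∀ z : ℂ, ‖z‖ ≤ 2 * Real.log n → ‖qz n r z - 1‖ ≤ 1 / 100

/-- one exponential -/
def ST_CI : Prop := ∀ (N : ℕ) (ρ : ℝ) (c : ℂ), 0 < ρ →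
  ∫ t in (-Real.pi)..Real.pi, Complex.exp (c * zt ρ t) * Complex.exp (-((N : ℂ) * t * Complex.I)) =
    2 * Real.pi * (c * ρ) ^ N / (N.factorial : ℂ)

/-- integral representation -/
def ST_REP : Prop := ∀ (n : ℕ) (E : Finset (Finset (Fin n))) (a ρ : ℝ) (r : ℕ → ℂ),
  Al E ∅ → 0 < ρ →
  (∀ x : ℂ, PW E univ (x + a) = ∑ j ∈ range (n + 1), r j * x ^ (n - j)) →
    ∀ k : ℕ, (sur E univ k : ℂ) = (n.factorial : ℂ) / (2 * Real.pi) / (ρ : ℂ) ^ n *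
      (Complex.exp (ρ : ℂ) - 1) ^ k * Complex.exp (-(a : ℂ) * ρ) * Jk n k a ρ (qz n r)

/-! ### saddle point -/

/-- the function `log (1 - e^(-z))` near the real axis -/
def ST_SDG : Prop := ∀ ρ s t : ℝ, 8 ≤ ρ → |s| ≤ 1 / 2 → |t| ≤ 1 / 2 →
  Complex.exp (zt ρ t) * Complex.exp (GG ρ t) = Complex.exp (zt ρ t) - 1 ∧
  ‖GG ρ t - GG ρ s‖ ≤ 2 * ρ * Real.exp (-(ρ / 2)) * |t - s| ∧
  ‖GG ρ t - GG ρ 0 - Complex.I * t * (ρ / (Real.exp ρ - 1) : ℝ)‖ ≤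
    3 * ρ ^ 2 * Real.exp (-(ρ / 2)) * t ^ 2

/-- the saddle point -/
def ST_SD1 : Prop := ∃ n₀ : ℕ, ∀ n ≥ n₀, ∀ m : ℕ, (n : ℝ) ≤ 1.46 * m * Real.log n →
  m * Real.log n ≤ 3 * n → ∀ a : ℝ, 0 ≤ a → a ≤ Real.sqrt n →
    ∃ ρ : ℝ, Real.log n / 7 ≤ ρ ∧ ρ ≤ 1.5 * Real.log n ∧
      m * (ρ / (1 - Real.exp (-ρ))) - a * ρ = n

/-- the function `e^z - 1` on a circle -/
def ST_SD2 : Prop := ∀ ρ t : ℝ, 4 ≤ ρ →
  ‖(Complex.exp (zt ρ t) - 1) / (Complex.exp (ρ : ℂ) - 1)‖ ≤ Real.exp (-(ρ * (1 - Real.cos t) / 8))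

/-- tails -/
def ST_SD3 : Prop := ∃ n₀ : ℕ, ∀ n ≥ n₀, ∀ m : ℕ, (n : ℝ) ≤ 1.46 * m * Real.log n →
  m * Real.log n ≤ 3 * n → ∀ a : ℝ, 0 ≤ a → a ≤ Real.sqrt n →
    ∀ ρ : ℝ, Real.log n / 7 ≤ ρ → ρ ≤ 1.5 * Real.log n →
      m * (ρ / (1 - Real.exp (-ρ))) - a * ρ = n →
    ∀ q : ℂ → ℂ, (∀ z, ‖z‖ ≤ 2 * Real.log n → ‖q z - 1‖ ≤ 1 / 100) →
    ∀ k : ℕ, m - 1 ≤ k → ∀ t : ℝ, |t| ≤ Real.pi →
      ‖wk n k a ρ q t‖ ≤ 1.01 * Real.exp (-(n * t ^ 2 / 50))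

/-- the main arc -/
def ST_SD4 : Prop := ∃ n₀ : ℕ, ∀ n ≥ n₀, ∀ m : ℕ, (n : ℝ) ≤ 1.46 * m * Real.log n →
  m * Real.log n ≤ 3 * n → ∀ a : ℝ, 0 ≤ a → a ≤ Real.sqrt n →
    ∀ ρ : ℝ, Real.log n / 7 ≤ ρ → ρ ≤ 1.5 * Real.log n →
      m * (ρ / (1 - Real.exp (-ρ))) - a * ρ = n →
    ∀ q : ℂ → ℂ, (∀ z, ‖z‖ ≤ 2 * Real.log n → ‖q z - 1‖ ≤ 1 / 100) →
    ∀ t : ℝ, |t| ≤ 20 * Real.sqrt (Real.log n / n) →
      ‖wk n m a ρ q t * Complex.exp ((n : ℂ) * t ^ 2 / 2) - 1‖ ≤ 1 / 20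

/-- the quotient of two values on the main arc -/
def ST_SD5 : Prop := ∃ n₀ : ℕ, ∀ n ≥ n₀,
    ∀ ρ : ℝ, Real.log n / 7 ≤ ρ → ρ ≤ 1.5 * Real.log n →
    ∀ s t : ℝ, |s| ≤ 20 * Real.sqrt (Real.log n / n) → |t| ≤ 20 * Real.sqrt (Real.log n / n) →
      Complex.exp (zt ρ t) - 1 ≠ 0 ∧
      ‖((Complex.exp (zt ρ t) - 1) / (Complex.exp (zt ρ s) - 1) +
        (Complex.exp (zt ρ s) - 1) / (Complex.exp (zt ρ t) - 1)) / 2 - 1 +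
          (ρ ^ 2 * (t - s) ^ 2 / 2 : ℝ)‖ ≤ ρ ^ 2 * (t - s) ^ 2 / 20

/-- log-concavity of the integrals -/
def ST_SAD : Prop := ∃ n₀ : ℕ, ∀ n ≥ n₀, ∀ m : ℕ, (n : ℝ) ≤ 1.46 * m * Real.log n →
  m * Real.log n ≤ 3 * n → ∀ a : ℝ, 0 ≤ a → a ≤ Real.sqrt n →
    ∀ q : ℂ → ℂ, Continuous q → (∀ z, ‖z‖ ≤ 2 * Real.log n → ‖q z - 1‖ ≤ 1 / 100) →
    ∃ ρ : ℝ, 0 < ρ ∧ ρ ≤ 2 * Real.log n ∧ ((Jk n m a ρ q).im = 0 →
      0 < (Jk n m a ρ q).re ∧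
      (Jk n (m - 1) a ρ q * Jk n (m + 1) a ρ q).re ≤ (1 + 1 / (4 * m)) * (Jk n m a ρ q).re ^ 2)

/-- log-concavity for graphs in the window -/
def ST_LCG : Prop := ∃ n₀ : ℕ, ∀ n ≥ n₀, ∀ E : Finset (Finset (Fin n)), (∀ e ∈ E, e.card = 2) →
  (∀ v : Fin n, (deg2 E v : ℝ) * (E.card : ℝ) ≤ (1 / 1000000000) * (n / Real.log n) ^ 2) →
  ∀ m : ℕ, (n : ℝ) ≤ 1.46 * m * Real.log n → m * Real.log n ≤ 3 * n →
    0 < sur E univ m ∧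
    ((sur E univ (m - 1) : ℝ) * sur E univ (m + 1) ≤ (1 + 1 / (4 * m)) * (sur E univ m : ℝ) ^ 2)

/-- log-concavity for hypergraphs in the window -/
def ST_PER : Prop := ∃ n₀ : ℕ, ∀ n ≥ n₀, ∀ E : Finset (Finset (Fin n)),
  (∀ e ∈ E, 2 ≤ e.card) →
  (∀ v : Fin n, (deg2 E v : ℝ) * ((E.filter (fun e => e.card = 2)).card : ℝ) ≤
      (1 / 1000000000) * (n / Real.log n) ^ 2) →
  ((E.filter (fun e => 3 ≤ e.card ∧ (e.card : ℝ) < 40 * Real.log n)).card : ℝ) ≤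
      (1 / 1000000000) * (n / Real.log n) →
  ∀ m : ℕ, (n : ℝ) ≤ 1.46 * m * Real.log n → m * Real.log n ≤ 3 * n →
    0 < sur E univ m ∧
    m * (sur E univ (m - 1) * sur E univ (m + 1)) ≤ (m + 1) * (sur E univ m) ^ 2

/-! ### end -/

/-- unimodality from the three segments -/
def ST_UNI : Prop := ∀ (n M₁ M₂ : ℕ) (b : ℕ → ℕ), M₁ ≤ M₂ →
  (∀ m, 1 ≤ m → m ≤ M₁ → b m ≤ b (m + 1)) →
  (∀ m, M₁ < m → m ≤ M₂ → 0 < b m ∧ b (m - 1) * b (m + 1) ≤ (b m) ^ 2) →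
  (∀ m, M₂ < m → m < n → b (m + 1) ≤ b m) →
    ∃ k : ℕ, (∀ i j : ℕ, 1 ≤ i → i ≤ j → j ≤ k → b i ≤ b j) ∧
      (∀ i j : ℕ, k ≤ i → i ≤ j → j ≤ n → b j ≤ b i)

/-- the main theorem -/
def ST_MAIN : Prop := ∃ c : ℝ, 0 < c ∧ ∃ n₀ : ℕ, ∀ n ≥ n₀, ∀ E : Finset (Finset (Fin n)),
  (∀ v : Fin n, (deg2 E v : ℝ) * ((E.filter (fun e => e.card = 2)).card : ℝ) ≤
      c * (n / Real.log n) ^ 2) →
  ((E.filter (fun e => 3 ≤ e.card ∧ (e.card : ℝ) < 40 * Real.log n)).card : ℝ) ≤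
      c * (n / Real.log n) →
    ∃ k : ℕ, (∀ i j : ℕ, 1 ≤ i → i ≤ j → j ≤ k → bc E i ≤ bc E j) ∧
      (∀ i j : ℕ, k ≤ i → i ≤ j → j ≤ n → bc E j ≤ bc E i)

end Pool.Agent.Helper89.UB
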