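import Pool.Agent.Helper89.UB.Stmts

set_option autoImplicit false

open Finset

namespace Pool.Agent.Helper89.UB

theorem st_INIT (h1 : ST_MRG) (h2 : ST_AMG) : ST_INIT := by
  classical
  intro n m E hm hmn
  have hmg : ∀ c ∈ OP E univ (m + 1), mg E c ≤ (m + 1) * m := by
    intro c _
    unfold mg
    have h3 : (univ.filter (fun p : Fin (m + 1) × Fin (m + 1) =>
        p.1 ≠ p.2 ∧ Al E (c p.1 ∪ c p.2))) ⊆ (univ : Finset (Fin (m + 1))).offDiag := by
      intro p hp
      rw [mem_offDiag]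
      exact ⟨mem_univ _, mem_univ _, (mem_filter.1 hp).2.1⟩
    refine (card_le_card h3).trans ?_
    rw [offDiag_card, card_univ, Fintype.card_fin]
    have : (m + 1) * (m + 1) - (m + 1) = (m + 1) * m := by
      rw [Nat.mul_succ, Nat.add_sub_cancel]
    exact this.le
  have h4 := h1 n E m
  have h5 : ∑ c ∈ OP E univ (m + 1), mg E c ≤ sur E univ (m + 1) * ((m + 1) * m) := by
    unfold sur
    exact sum_le_card_nsmul _ _ _ hmg |>.trans (by rw [smul_eq_mul])
  have h6 : sur E univ m * (m * (m + 1)) ≤ ∑ c ∈ OP E univ m, ∑ i, (2 ^ (c i).card - 2) := by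
    unfold sur
    have := card_nsmul_le_sum (OP E univ m) (fun c => ∑ i, (2 ^ (c i).card - 2)) (m * (m + 1))
      (fun c hc => h2 n m E c hm hmn hc)
    rwa [smul_eq_mul] at this
  have h7 : ((m + 1) * sur E univ m) * (m * (m + 1)) ≤ sur E univ (m + 1) * (m * (m + 1)) := by
    calc ((m + 1) * sur E univ m) * (m * (m + 1)) = (m + 1) * (sur E univ m * (m * (m + 1))) := by
          ring
      _ ≤ (m + 1) * ∑ c ∈ OP E univ m, ∑ i, (2 ^ (c i).card - 2) := Nat.mul_le_mul_left _ h6
      _ = ∑ c ∈ OP E univ (m + 1), mg E c := h4.symm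
      _ ≤ sur E univ (m + 1) * ((m + 1) * m) := h5
      _ = _ := by ring
  exact Nat.le_of_mul_le_mul_right h7 (by positivity)

end Pool.Agent.Helper89.UB
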