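import Pool.Agent.Helper89.UB.Stmts

set_option autoImplicit false

open Finset

namespace Pool.Agent.Helper89.UB

theorem hnd_sum {n : ℕ} (E : Finset (Finset (Fin n))) (hE : ∀ e ∈ E, e.card = 2) :
    ∑ v : Fin n, deg2 E v = 2 * E.card := by
  classical
  have h1 : ∀ v : Fin n, deg2 E v = ∑ e ∈ E, if v ∈ e then 1 else 0 := by
    intro v
    unfold deg2
    rw [card_filter]
    refine sum_congr rfl ?_
    intro e he
    by_cases h : v ∈ e
    · rw [if_pos ⟨hE e he, h⟩, if_pos h]
    · rw [if_neg (fun h' => h h'.2), if_neg h]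
  rw [sum_congr rfl (fun v _ => h1 v), sum_comm]
  have h2 : ∀ e ∈ E, (∑ v : Fin n, if v ∈ e then 1 else 0) = 2 := by
    intro e he
    rw [sum_boole, Finset.filter_mem_eq_inter, Finset.univ_inter]
    exact_mod_cast hE e he
  rw [sum_congr rfl h2, sum_const, smul_eq_mul, mul_comm]

theorem hnd_deg {n : ℕ} (E : Finset (Finset (Fin n))) (v : Fin n) : deg2 E v ≤ E.card :=
  card_filter_le _ _

theorem st_HND : ST_HND := by
  classical
  refine ⟨3, ?_⟩
  intro n hn E hE hv
  have hnR : (3 : ℝ) ≤ n := by exact_mod_cast hn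
  have hL : 0 < Real.log n := Real.log_pos (by linarith)
  have hq : 0 < (n : ℝ) / Real.log n := div_pos (by linarith) hL
  constructor
  · intro v
    have h1 : (deg2 E v : ℝ) ≤ E.card := by exact_mod_cast hnd_deg E v
    have h2 : (0 : ℝ) ≤ deg2 E v := Nat.cast_nonneg _
    have h3 : (deg2 E v : ℝ) ^ 2 ≤ (1 / 30000 * ((n : ℝ) / Real.log n)) ^ 2 := by
      calc (deg2 E v : ℝ) ^ 2 = deg2 E v * deg2 E v := by ring
        _ ≤ deg2 E v * E.card := mul_le_mul_of_nonneg_left h1 h2
        _ ≤ 1 / 1000000000 * ((n : ℝ) / Real.log n) ^ 2 := hv v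
        _ ≤ (1 / 30000) ^ 2 * ((n : ℝ) / Real.log n) ^ 2 :=
            mul_le_mul_of_nonneg_right (by norm_num) (by positivity)
        _ = _ := by ring
    exact (pow_le_pow_iff_left₀ h2 (by positivity) (by norm_num)).1 h3
  · have h1 : ∑ v : Fin n, (deg2 E v : ℝ) * (E.card : ℝ) ≤
        ∑ v : Fin n, 1 / 1000000000 * ((n : ℝ) / Real.log n) ^ 2 := sum_le_sum fun v _ => hv v
    rw [← sum_mul, sum_const, card_univ, Fintype.card_fin, nsmul_eq_mul] at h1
    have h2 : ∑ v : Fin n, (deg2 E v : ℝ) = 2 * E.card := by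
      have := hnd_sum E hE
      exact_mod_cast this
    rw [h2] at h1
    have h3 : (n : ℝ) * (1 / 1000000000 * ((n : ℝ) / Real.log n) ^ 2) =
        2 * ((1 / 2000000000) * n ^ 3 / (Real.log n) ^ 2) := by
      field_simp
      ring
    rw [h3] at h1
    nlinarith [h1]

end Pool.Agent.Helper89.UB
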