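import Pool.Agent.Helper89.UB.Stmts

set_option autoImplicit false

open Finset

namespace Pool.Agent.Helper89.UB

theorem main_zero {n : ℕ} (E : Finset (Finset (Fin n))) (hn : 1 ≤ n)
    (he : ∃ e ∈ E, e.card ≤ 1) (m : ℕ) : bc E m = 0 := by
  unfold bc
  rw [Set.ncard_eq_zero (Set.toFinite _)]
  ext P
  simp only [Set.mem_setOf_eq, Set.mem_empty_iff_false, iff_false]
  rintro ⟨-, -, -, h3, h4⟩
  obtain ⟨e, he, hc⟩ := he
  rcases Nat.lt_or_ge e.card 1 with h | h
  · have h0 : e = ∅ := by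
      rw [← Finset.card_eq_zero]; omega
    obtain ⟨B, hB, -⟩ := h3 ⟨0, hn⟩
    exact h4 B hB e he (by rw [h0]; exact Finset.empty_subset _)
  · obtain ⟨v, hv⟩ := Finset.card_eq_one.1 (le_antisymm hc h)
    obtain ⟨B, hB, hvB⟩ := h3 v
    exact h4 B hB e he (by rw [hv]; exact Finset.singleton_subset_iff.2 hvB)

theorem st_MAIN (h1 : ST_LNK) (h2 : ST_INIT) (h3 : ST_FIN) (h4 : ST_PER) (h5 : ST_UNI) :
    ST_MAIN := by
  obtain ⟨n3, h3⟩ := h3
  obtain ⟨n4, h4⟩ := h4
  refine ⟨1 / 1000000000, by norm_num, max (max n3 n4) 100, ?_⟩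
  intro n hn E hE1 hE2
  have hn3 : n3 ≤ n := le_trans (le_trans (le_max_left _ _) (le_max_left _ _)) hn
  have hn4 : n4 ≤ n := le_trans (le_trans (le_max_right _ _) (le_max_left _ _)) hn
  have hn5 : 100 ≤ n := le_trans (le_max_right _ _) hn
  by_cases hb : ∃ e ∈ E, e.card ≤ 1
  · have hz := main_zero E (by omega) hb
    exact ⟨n, fun i j _ _ _ => by rw [hz i]; exact Nat.zero_le _,
      fun i j _ _ _ => by rw [hz j]; exact Nat.zero_le _⟩
  push Not at hb
  have hE : ∀ e ∈ E, 2 ≤ e.card := fun e he => hb e he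
  have hnR : (100 : ℝ) ≤ n := by exact_mod_cast hn5
  have hL : 4 < Real.log n := by
    have h100 : (4 : ℝ) < Real.log 100 := by
      rw [Real.lt_log_iff_exp_lt (by norm_num)]
      have he := Real.exp_one_lt_d9
      have h4 : Real.exp 4 = Real.exp 1 ^ 4 := by
        rw [← Real.exp_nat_mul]; norm_num
      rw [h4]
      calc Real.exp 1 ^ 4 < 2.7182818286 ^ 4 :=
            pow_lt_pow_left₀ he (Real.exp_pos _).le (by norm_num)
        _ < 100 := by norm_num
    exact lt_of_lt_of_le h100 (Real.log_le_log (by norm_num) hnR)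
  have hLp : 0 < Real.log n := by linarith
  have hf := h1 n E
  have hsucc : ∀ m : ℕ, (m + 1) * sur E univ m ≤ sur E univ (m + 1) → bc E m ≤ bc E (m + 1) := by
    intro m h
    rw [← hf m, ← hf (m + 1), Nat.factorial_succ] at h
    have h6 : bc E m * ((m + 1) * m.factorial) ≤ bc E (m + 1) * ((m + 1) * m.factorial) := by
      calc bc E m * ((m + 1) * m.factorial) = (m + 1) * (bc E m * m.factorial) := by ring
        _ ≤ _ := h
    exact Nat.le_of_mul_le_mul_right h6 (by positivity)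
  have hsucc' : ∀ m : ℕ, sur E univ (m + 1) ≤ (m + 1) * sur E univ m → bc E (m + 1) ≤ bc E m := by
    intro m h
    rw [← hf m, ← hf (m + 1), Nat.factorial_succ] at h
    have h6 : bc E (m + 1) * ((m + 1) * m.factorial) ≤ bc E m * ((m + 1) * m.factorial) := by
      calc _ ≤ _ := h
        _ = _ := by ring
    exact Nat.le_of_mul_le_mul_right h6 (by positivity)
  apply h5 n ⌊(n : ℝ) / (1.46 * Real.log n)⌋₊ ⌊3 * (n : ℝ) / Real.log n⌋₊ (bc E)
  · apply Nat.floor_mono
    rw [div_le_div_iff₀ (by positivity) hLp]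
    nlinarith [mul_pos (show (0 : ℝ) < n by linarith) hLp]
  · intro m hm1 hm2
    apply hsucc
    apply h2 n m E hm1
    have hm3 : (m : ℝ) ≤ (n : ℝ) / (1.46 * Real.log n) := (Nat.le_floor_iff (by positivity)).1 hm2
    have hm4 : (m : ℝ) * (1.46 * Real.log n) ≤ n := (le_div_iff₀ (by positivity)).1 hm3
    have hm5 : (m : ℝ) + 3 ≤ n := by nlinarith
    have hm6 : (1 : ℝ) ≤ m := by exact_mod_cast hm1
    have h7 : ((m : ℝ) + 3) ^ m ≤ 2 ^ n := by
      rw [← Real.log_le_log_iff (by positivity) (by positivity), Real.log_pow, Real.log_pow]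
      have h8 : Real.log ((m : ℝ) + 3) ≤ Real.log n := Real.log_le_log (by positivity) hm5
      have h9 := Real.log_two_gt_d9
      have h10 : (m : ℝ) * Real.log ((m : ℝ) + 3) ≤ m * Real.log n :=
        mul_le_mul_of_nonneg_left h8 (by positivity)
      nlinarith
    exact_mod_cast h7
  · intro m hm1 hm2
    have hm3 : (n : ℝ) / (1.46 * Real.log n) < m := (Nat.floor_lt (by positivity)).1 hm1
    have hm4 : (n : ℝ) < m * (1.46 * Real.log n) := (div_lt_iff₀ (by positivity)).1 hm3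
    have hm5 : (m : ℝ) ≤ 3 * (n : ℝ) / Real.log n := (Nat.le_floor_iff (by positivity)).1 hm2
    have hm6 : (m : ℝ) * Real.log n ≤ 3 * n := (le_div_iff₀ hLp).1 hm5
    obtain ⟨h6, h7⟩ := h4 n hn4 E hE hE1 hE2 m (by linarith) hm6
    obtain ⟨k, rfl⟩ : ∃ k, m = k + 1 := ⟨m - 1, by omega⟩
    refine ⟨?_, ?_⟩
    · rw [← hf (k + 1)] at h6
      exact Nat.pos_of_mul_pos_right h6
    · simp only [Nat.add_sub_cancel] at h7 ⊢
      rw [← hf k, ← hf (k + 1), ← hf (k + 1 + 1), Nat.factorial_succ (k + 1),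
        Nat.factorial_succ k] at h7
      have h8 : (bc E k * bc E (k + 1 + 1)) * ((k + 1 + 1) * ((k + 1) * k.factorial) ^ 2) ≤
          (bc E (k + 1)) ^ 2 * ((k + 1 + 1) * ((k + 1) * k.factorial) ^ 2) := by
        calc (bc E k * bc E (k + 1 + 1)) * ((k + 1 + 1) * ((k + 1) * k.factorial) ^ 2) =
            (k + 1) * (bc E k * k.factorial *
              (bc E (k + 1 + 1) * ((k + 1 + 1) * ((k + 1) * k.factorial)))) := by ring
          _ ≤ _ := h7
          _ = _ := by ring
      exact Nat.le_of_mul_le_mul_right h8 (by positivity)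
  · intro m hm1 hm2
    have hm3 : 3 * (n : ℝ) / Real.log n < m := (Nat.floor_lt (by positivity)).1 hm1
    have hm4 : 3 * (n : ℝ) < m * Real.log n := (div_lt_iff₀ hLp).1 hm3
    exact hsucc' m (h3 n hn3 E hE hE1 hE2 m hm4 hm2)

end Pool.Agent.Helper89.UB
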