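import Pool.Agent.Helper14.UB.SURC
import Pool.Agent.Helper18.UB.ETS
import Pool.Agent.Helper18.UB.EXP
import Pool.Agent.Helper18.UB.LNK
import Pool.Agent.Helper18.UB.MGL
import Pool.Agent.Helper24.UB.SD2
import Pool.Agent.Helper30.UB.ETK
import Pool.Agent.Helper30.UB.MRG
import Pool.Agent.Helper30.UB.PRD
import Pool.Agent.Helper38.UB.SAD
import Pool.Agent.Helper38.UB.SD1
import Pool.Agent.Helper38.UB.SD4
import Pool.Agent.Helper38.UB.SD5
import Pool.Agent.Helper38.UB.SDG
import Pool.Agent.Helper41.UB.KREC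
import Pool.Agent.Helper41.UB.RAT
import Pool.Agent.Helper44.UB.ETN
import Pool.Agent.Helper49.UB.LCG
import Pool.Agent.Helper49.UB.QBD
import Pool.Agent.Helper49.UB.SHX
import Pool.Agent.Helper51.UB.KB2
import Pool.Agent.Helper51.UB.KCOL
import Pool.Agent.Helper52.UB.KB1
import Pool.Agent.Helper52.UB.SUB
import Pool.Agent.Helper58.UB.PER
import Pool.Agent.Helper59.UB.INS
import Pool.Agent.Helper67.UB.AMG
import Pool.Agent.Helper67.UB.BIG
import Pool.Agent.Helper72.UB.FIN
import Pool.Agent.Helper72.UB.SD3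
import Pool.Agent.Helper78.UB.SHC
import Pool.Agent.Helper80.UB.SHF
import Pool.Agent.Helper82.UB.REP
import Pool.Agent.Helper82.UB.SHE
import Pool.Agent.Helper89.UB.HND
import Pool.Agent.Helper89.UB.INIT
import Pool.Agent.Helper89.UB.MAIN
import Pool.Agent.Helper89.UB.UNI
import Pool.Agent.Helper94.UB.PNAT
import Pool.Agent.Helper95.UB.INB
import Pool.Agent.Helper97.UB.BIN
import Pool.Agent.Helper97.UB.CI

set_option autoImplicit false

namespace Pool.Agent.Helper89.UB

theorem all_SUB : ST_SUB := st_SUB st_INS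
theorem all_EXP : ST_EXP := st_EXP all_SUB
theorem all_BIG : ST_BIG := st_BIG all_SUB
theorem all_FIN : ST_FIN := st_FIN st_MRG all_EXP st_INB st_MGL st_HND
theorem all_PNAT : ST_PNAT := st_PNAT st_SURC st_BIN
theorem all_KREC : ST_KREC := st_KREC all_PNAT st_KCOL
theorem all_ETN : ST_ETN := st_ETN st_ETS
theorem all_KB1 : ST_KB1 := st_KB1 st_ETK all_ETN
theorem all_KB2 : ST_KB2 := st_KB2 st_ETK all_ETN all_KB1
theorem all_RAT : ST_RAT := st_RAT all_KREC all_KB2
theorem all_PRD : ST_PRD := st_PRD all_RAT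
theorem all_SHE : ST_SHE := st_SHE all_PRD st_HND
theorem all_SHF : ST_SHF := st_SHF st_SHX st_SHC all_SHE
theorem all_QBD : ST_QBD := st_QBD st_FAL
theorem all_REP : ST_REP := st_REP st_CI
theorem all_SD3 : ST_SD3 := st_SD3 st_SD2
theorem all_SD4 : ST_SD4 := st_SD4 st_SDG
theorem all_SD5 : ST_SD5 := st_SD5 st_SDG
theorem all_SAD : ST_SAD := st_SAD st_SD1 all_SD3 all_SD4 all_SD5
theorem all_LCG : ST_LCG := st_LCG st_HND all_SHF all_QBD all_REP all_SAD
theorem all_PER : ST_PER := st_PER all_LCG all_SUB all_BIG st_INB st_HND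
theorem all_INIT : ST_INIT := st_INIT st_MRG st_AMG
theorem all_MAIN : ST_MAIN := st_MAIN st_LNK all_INIT all_FIN all_PER st_UNI

end Pool.Agent.Helper89.UB
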