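import Mathlib

set_option autoImplicit false

open Finset

namespace Pool.Agent.Helper89.UB

/-- `B` contains no edge of `E`. -/
def Al {n : ℕ} (E : Finset (Finset (Fin n))) (B : Finset (Fin n)) : Prop :=
  ∀ e ∈ E, ¬ e ⊆ B

/-- number of partitions of the vertex set into `m` blocks without edges -/
noncomputable def bc {n : ℕ} (E : Finset (Finset (Fin n))) (m : ℕ) : ℕ :=
  Set.ncard {P : Finset (Finset (Fin n)) |
    P.card = m ∧
    (∀ B ∈ P, B.Nonempty) ∧
    (∀ B ∈ P, ∀ C ∈ P, B ≠ C → Disjoint B C) ∧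
    (∀ v : Fin n, ∃ B ∈ P, v ∈ B) ∧
    (∀ B ∈ P, ∀ e ∈ E, ¬ e ⊆ B)}

open scoped Classical in
/-- ordered partitions of `W` into `m` nonempty sets without edges -/
noncomputable def OP {n : ℕ} (E : Finset (Finset (Fin n))) (W : Finset (Fin n)) (m : ℕ) :
    Finset (Fin m → Finset (Fin n)) :=
  Finset.univ.filter (fun c => (∀ i, (c i).Nonempty) ∧ (∀ i j, i ≠ j → Disjoint (c i) (c j)) ∧
    (∀ v, v ∈ W ↔ ∃ i, v ∈ c i) ∧ ∀ i, Al E (c i))

/-- number of ordered partitions -/
noncomputable def sur {n : ℕ} (E : Finset (Finset (Fin n))) (W : Finset (Fin n)) (m : ℕ) : ℕ :=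
  (OP E W m).card

open scoped Classical in
/-- number of ordered pairs of blocks that can be merged -/
noncomputable def mg {n m : ℕ} (E : Finset (Finset (Fin n))) (c : Fin m → Finset (Fin n)) : ℕ :=
  (Finset.univ.filter (fun p : Fin m × Fin m => p.1 ≠ p.2 ∧ Al E (c p.1 ∪ c p.2))).card

open scoped Classical in
/-- at most `D` blocks cannot receive a new vertex -/
def InsB {n : ℕ} (E : Finset (Finset (Fin n))) (D : ℕ) : Prop :=
  ∀ (W : Finset (Fin n)) (m : ℕ) (c : Fin m → Finset (Fin n)), c ∈ OP E W m →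
    ∀ v : Fin n, v ∉ W →
      (Finset.univ.filter (fun i : Fin m => ¬ Al E (insert v (c i)))).card ≤ D

/-- number of two-element edges at `v` -/
def deg2 {n : ℕ} (E : Finset (Finset (Fin n))) (v : Fin n) : ℕ :=
  (E.filter (fun e => e.card = 2 ∧ v ∈ e)).card

/-- number of neighbours of `v` in `U` -/
def dg {n : ℕ} (E : Finset (Finset (Fin n))) (U : Finset (Fin n)) (v : Fin n) : ℕ :=
  (U.filter (fun u => ({v, u} : Finset (Fin n)) ∈ E ∧ u ≠ v)).card

open scoped Classical in
/-- indicator of the sets without edges -/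
noncomputable def fz {n : ℕ} (E : Finset (Finset (Fin n))) (B : Finset (Fin n)) : ℤ :=
  if Al E B then 1 else 0

open scoped Classical in
/-- indicator of the nonempty sets without edges -/
noncomputable def fp {n : ℕ} (E : Finset (Finset (Fin n))) (B : Finset (Fin n)) : ℤ :=
  if B.Nonempty ∧ Al E B then 1 else 0

/-- convolution powers of a set function -/
def pw {n : ℕ} (f : Finset (Fin n) → ℤ) : ℕ → Finset (Fin n) → ℤ
  | 0, W => if W = ∅ then 1 else 0
  | q + 1, W => ∑ S ∈ W.powerset, f S * pw f q (W \ S)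

/-- the set function `K` with `h = K * f` (convolution), when `f ∅ = 1` -/
def quo {n : ℕ} (f h : Finset (Fin n) → ℤ) (B : Finset (Fin n)) : ℤ :=
  h B - ∑ S ∈ B.ssubsets.attach, quo f h S.1 * f (B \ S.1)
termination_by B.card
decreasing_by exact Finset.card_lt_card (Finset.mem_ssubsets.1 S.2)

theorem quo_spec {n : ℕ} (f h : Finset (Fin n) → ℤ) (hf : f ∅ = 1) (B : Finset (Fin n)) :
    h B = ∑ S ∈ B.powerset, quo f h S * f (B \ S) := by
  have h1 : B.powerset = insert B B.ssubsets := by
    ext S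
    simp only [mem_powerset, mem_insert, mem_ssubsets]
    constructor
    · intro h
      rcases eq_or_ssubset_of_subset h with h | h
      · exact Or.inl h
      · exact Or.inr h
    · rintro (h | h)
      · exact h ▸ subset_rfl
      · exact h.1
  rw [h1, sum_insert (by simp), sdiff_self, bot_eq_empty, hf, mul_one, quo,
    sum_attach B.ssubsets (fun S => quo f h S * f (B \ S))]
  ring

theorem quo_unique {n : ℕ} (f h : Finset (Fin n) → ℤ) (hf : f ∅ = 1) (U : Finset (Fin n))
    (g : Finset (Fin n) → ℤ)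
    (hg : ∀ B ⊆ U, h B = ∑ S ∈ B.powerset, g S * f (B \ S)) :
    ∀ B ⊆ U, g B = quo f h B := by
  intro B
  induction B using Finset.strongInduction with
  | H B ih =>
    intro hB
    have h1 : B.powerset = insert B B.ssubsets := by
      ext S
      simp only [mem_powerset, mem_insert, mem_ssubsets]
      constructor
      · intro h
        rcases eq_or_ssubset_of_subset h with h | h
        · exact Or.inl h
        · exact Or.inr h
      · rintro (h | h)
        · exact h ▸ subset_rfl
        · exact h.1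
    have h2 := hg B hB
    have h3 := quo_spec f h hf B
    rw [h1, sum_insert (by simp), sdiff_self, bot_eq_empty, hf, mul_one] at h2 h3
    have h4 : ∑ S ∈ B.ssubsets, g S * f (B \ S) = ∑ S ∈ B.ssubsets, quo f h S * f (B \ S) := by
      apply sum_congr rfl
      intro S hS
      rw [ih S (mem_ssubsets.1 hS) ((mem_ssubsets.1 hS).1.trans hB)]
    linarith

/-- cumulants: `f (insert v B) = sum over S ⊆ B of kap v S * f (B \ S)` -/
noncomputable def kap {n : ℕ} (E : Finset (Finset (Fin n))) (v : Fin n) (B : Finset (Fin n)) : ℤ :=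
  quo (fz E) (fun B => fz E (insert v B)) B

open scoped Classical in
/-- `f` restricted to the sets missing `N`, divided by `f` -/
noncomputable def eta {n : ℕ} (E : Finset (Finset (Fin n))) (N : Finset (Fin n))
    (B : Finset (Fin n)) : ℤ :=
  quo (fz E) (fun B => if Disjoint B N then fz E B else 0) B

/-- chromatic polynomial of the sub-hypergraph induced on `W` -/
noncomputable def PW {n : ℕ} (E : Finset (Finset (Fin n))) (W : Finset (Fin n)) (x : ℂ) : ℂ :=
  ∑ m ∈ range (W.card + 1), (sur E W m : ℂ) / (m.factorial : ℂ) * ∏ i ∈ range m, (x - i)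

/-- the transformed polynomial -/
noncomputable def qz (n : ℕ) (r : ℕ → ℂ) (z : ℂ) : ℂ :=
  ∑ j ∈ range (n + 1), r j * z ^ j * (((n - j).factorial : ℂ) / (n.factorial : ℂ))

/-- point of the circle -/
noncomputable def zt (ρ t : ℝ) : ℂ := (ρ : ℂ) * Complex.exp ((t : ℂ) * Complex.I)

/-- `log (1 - e^(-z))` on the circle -/
noncomputable def GG (ρ t : ℝ) : ℂ := Complex.log (1 - Complex.exp (-zt ρ t))

/-- integrand on the circle, normalised -/
noncomputable def wk (n k : ℕ) (a ρ : ℝ) (q : ℂ → ℂ) (t : ℝ) : ℂ :=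
  ((Complex.exp (zt ρ t) - 1) / (Complex.exp (ρ : ℂ) - 1)) ^ k *
    Complex.exp (-(a : ℂ) * (zt ρ t - ρ)) * q (zt ρ t) * Complex.exp (-((n : ℂ) * t * Complex.I))

/-- the integral -/
noncomputable def Jk (n k : ℕ) (a ρ : ℝ) (q : ℂ → ℂ) : ℂ :=
  ∫ t in (-Real.pi)..Real.pi, wk n k a ρ q t

end Pool.Agent.Helper89.UB
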